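import Mathlib

namespace Pool.Agent.Results.MP_0a3b9a_nt.Full

open Finset

/-- `u ≡ v (mod p^m)` for rationals: `(u - v) / p^m` has denominator prime to `p` -/
def cong (p m : ℕ) (u v : ℚ) : Prop := ¬ p ∣ ((u - v) / (p : ℚ) ^ m).den

instance (p m : ℕ) (u v : ℚ) : Decidable (cong p m u v) := by unfold cong; infer_instance

/-- the generalized binomial coefficient `a (a-1) ⋯ (a-k+1) / k!` -/
def bin (a : ℚ) (k : ℕ) : ℚ := (∏ i ∈ range k, (a - i)) / k.factorial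

theorem result : ¬ ∀ p : ℕ, p.Prime → (p % 24 = 11 ∨ p % 24 = 17) →
    ∀ c d r : ℤ, (p : ℤ) = c ^ 2 + 2 * d ^ 2 → c ≡ 1 [ZMOD 4] → r * d ≡ c [ZMOD p] →
    cong p 2 (∑ k ∈ range p, bin (-1 / 3) k * bin (-1 / 6) k * (27 / 2) ^ k)
      ((-1) ^ (p / 8) * (jacobiSym (2 + r) p : ℚ) * (10 * d - 5 * p / (4 * d))) := by
  intro h
  have h1 := h 11 (by norm_num) (by norm_num) (-3) 1 (-3) (by norm_num) (by decide) (by decide)
  have e : jacobiSym (2 + -3) 11 = -1 := by norm_num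
  rw [e] at h1
  revert h1
  decide +kernel

end Pool.Agent.Results.MP_0a3b9a_nt.Full
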